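import Mathlib
import Pool.Agent.J4.H93.RZ.As

/-!
# MP_dd05ac_mp: the configurations `(1/m) V ∩ Ω` on the hexagonal torus are nearly optimal for every
periodic Riesz energy

The definitions are in `Pool/Agent/TH478/CE/DualDefs.lean` (`hexPt`) and
`Pool/Agent/J4/H93/RZ/Defs.lean` (the rest):

* `P = EuclideanSpace ℝ (Fin 2)`; `hexPt (j, k)` are the points of the hexagonal lattice `V = A₂` of
  covolume `1`;
* `Gam σ x = ∫_x^∞ u^(σ-1) e^(-u) du`, `Dual` is the dual lattice `V*`;
* `Kp s z` is the problem's periodic Riesz `s`-kernel `K_s^p(x, y)` (`t = 2`) for `z = x - y ∉ V`, the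
  Ewald sum over `V* \ {0}` and `V`, the exponential `e^{2 π i w·z}` being replaced by its real part
  (the imaginary parts of `w` and `-w` cancel);
* `Ep s x` is the energy, the sum of `Kp s (x_i - x_j)` over the ordered pairs `i ≠ j`;
* `star m` is the configuration of the `m²` points `(1/m) hexPt (i, j)`, `0 ≤ i, j < m`, that is
  `(1/m) V ∩ Ω`.
-/

set_option autoImplicit false

open MeasureTheory

namespace Pool.Agent.Results.MP_dd05ac_mp.NearOptimality

open Pool.Agent.TH478.CE Pool.Agent.J4.H93.RZ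

/-- For every `s > 0` and every `N = m²`, the points of `(1/m) V ∩ Ω` are distinct modulo `V`, and
their periodic Riesz `s`-energy exceeds the energy of any configuration of `N` points, pairwise
distinct modulo `V`, by at most `ε_s N^(1+s/2)`,
`ε_s = 10⁻⁸ (π^(s/2) / Γ(s/2 + 1) + (7/2) s (2/√3)^(-s/2-1))`. -/
theorem result (s : ℝ) (hs : 0 < s) (m : ℕ) (hm : 0 < m) :
    (∀ i j : Fin m × Fin m, i ≠ j → ∀ k : ℤ × ℤ, star m i - star m j + hexPt k ≠ 0) ∧
    ∀ x : Fin (m ^ 2) → P,
      (∀ i j : Fin (m ^ 2), i ≠ j → ∀ k : ℤ × ℤ, x i - x j + hexPt k ≠ 0) →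
      Ep s (star m) ≤ Ep s x + ((m : ℝ) ^ 2) ^ (1 + s / 2) *
        (10 ^ (-8 : ℤ) * (Real.pi ^ (s / 2) / Real.Gamma (s / 2 + 1) +
          7 * (s / 2) * (2 / √3) ^ (-(s / 2) - 1))) :=
  ⟨fun i j h k => star_ne m hm i j h k, fun x hx => riesz_near s hs m hm x hx⟩

end Pool.Agent.Results.MP_dd05ac_mp.NearOptimality
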