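import Mathlib
import Pool.Agent.J4.H95.RS.Main

/-!
# MP_dd05ac_mp: the constant `C_{s,2}` for all large `s`

The definitions are in `Pool/Agent/TH478/CE/DualDefs.lean` (`hexPt`), `Pool/Agent/J4/H93/RZ/Defs.lean`
(`Gam`, `Dual`, `Kp`, `Ep`), `Pool/Agent/J4/H93/RZ/Cube.lean` (`Sq`, `Er`, `Emin`) and
`Pool/Agent/J4/H95/RS/` (`Zt` in `Defs.lean`, `Dist` in `Asm.lean`, `Emn` in `Lim.lean`):

* `P = EuclideanSpace ℝ (Fin 2)`; `hexPt (j, k)` are the points of the hexagonal lattice `V = A₂` of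
  covolume `1`; `Zt s` is `ζ_V(s)`, the sum of `|v|^(-s)` over the nonzero `v ∈ V`;
* `Sq` is the unit square, `Er s x` the sum of `|x_i - x_j|^(-s)` over the ordered pairs `i ≠ j`, and
  `Emin s N` its infimum over the `N`-tuples of different points of `Sq`;
* `Gam σ x = ∫_x^∞ u^(σ-1) e^(-u) du`, `Dual` is the dual lattice `V*`;
* `Kp s z` is the problem's periodic Riesz `s`-kernel `K_s^p(x, y)` (`t = 2`) for `z = x - y ∉ V`, the
  Ewald sum over `V* \ {0}` and `V`, the exponential `e^{2 π i w·z}` being replaced by its real part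
  (the imaginary parts of `w` and `-w` cancel);
* `Ep s x` is the energy, the sum of `Kp s (x_i - x_j)` over the ordered pairs `i ≠ j`; `Dist x` says
  that the points `x_i` are pairwise distinct modulo `V`; `Emn s N` is the infimum of `Ep s x` over
  the `N`-point configurations with `Dist x`.
-/

set_option autoImplicit false

open Filter Topology

namespace Pool.Agent.Results.MP_dd05ac_mp.SteepRieszConstant

open Pool.Agent.TH478.CE Pool.Agent.J4.H93.RZ Pool.Agent.J4.H95.RS

/-- There is `s₀ > 2` such that `C_{s,2} = ζ_V(s)` for every real `s ≥ s₀`: the least Riesz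
`s`-energy of `N` points of the unit square, divided by `N^(1+s/2)`, tends to `ζ_V(s)`, and so does
the least periodic Riesz `s`-energy of `N` points on the hexagonal torus, divided by `N^(1+s/2)`. -/
theorem result : ∃ s₀ : ℝ, 2 < s₀ ∧ ∀ s : ℝ, s₀ ≤ s →
    Tendsto (fun N : ℕ => Emin s N / (N : ℝ) ^ (1 + s / 2)) atTop (𝓝 (Zt s)) ∧
    Tendsto (fun N : ℕ => Emn s N / (N : ℝ) ^ (1 + s / 2)) atTop (𝓝 (Zt s)) := by
  obtain ⟨s₀, h0, h1⟩ := Main.main
  exact ⟨s₀, h0, fun s hs => ⟨(h1 s hs).2.2, (h1 s hs).2.1⟩⟩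

end Pool.Agent.Results.MP_dd05ac_mp.SteepRieszConstant
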