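import Mathlib
import Pool.Agent.J4.H95.RS.Main

/-!
# MP_dd05ac_mp: the configurations `(1/m) V ∩ Ω` on the hexagonal torus are optimal for all large `s`

The definitions are in `Pool/Agent/TH478/CE/DualDefs.lean` (`hexPt`), `Pool/Agent/J4/H93/RZ/Defs.lean`
(`Gam`, `Dual`, `Kp`, `Ep`, `star`) and `Pool/Agent/J4/H95/RS/` (`tc` in `Bri.lean`, `Dist` in
`Asm.lean`, `pts` and `IsHexM` in `Uniq.lean`):

* `P = EuclideanSpace ℝ (Fin 2)`; `hexPt (j, k)` are the points of the hexagonal lattice `V = A₂` of
  covolume `1`; `tc` identifies `P` with the complex plane;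
* `Gam σ x = ∫_x^∞ u^(σ-1) e^(-u) du`, `Dual` is the dual lattice `V*`;
* `Kp s z` is the problem's periodic Riesz `s`-kernel `K_s^p(x, y)` (`t = 2`) for `z = x - y ∉ V`, the
  Ewald sum over `V* \ {0}` and `V`, the exponential `e^{2 π i w·z}` being replaced by its real part
  (the imaginary parts of `w` and `-w` cancel);
* `Ep s x` is the energy, the sum of `Kp s (x_i - x_j)` over the ordered pairs `i ≠ j`;
* `Dist x` says that the points `x_i` are pairwise distinct modulo `V`;
* `star m` is the configuration of the `m²` points `(1/m) hexPt (i, j)`, `0 ≤ i, j < m`, that is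
  `(1/m) V ∩ Ω`;
* `pts x` is the union of the sets `x_j + V`, and `IsHexM m C` says that `C` is the image of the
  lattice `(1/m) V` by a rotation and a translation.
-/

set_option autoImplicit false

namespace Pool.Agent.Results.MP_dd05ac_mp.SteepRieszEnergies

open Pool.Agent.TH478.CE Pool.Agent.J4.H93.RZ Pool.Agent.J4.H95.RS

/-- There is `s₀ > 2` such that for every real `s ≥ s₀` and every `m ≥ 1`, `N = m²`: the points of
`(1/m) V ∩ Ω` are pairwise distinct modulo `V` and have the least periodic Riesz `s`-energy of all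
configurations of `N` points which are pairwise distinct modulo `V`; and for every configuration `x`
with this energy the set `{x_j + v}` is an image of `(1/m) V` by a rotation and a translation. -/
theorem result : ∃ s₀ : ℝ, 2 < s₀ ∧ ∀ s : ℝ, s₀ ≤ s → ∀ m : ℕ, 0 < m →
    Dist (star m) ∧ ∀ x : Fin (m ^ 2) → P, Dist x →
      Ep s (star m) ≤ Ep s x ∧ (Ep s x = Ep s (star m) → IsHexM m (pts x)) := by
  obtain ⟨s₀, h0, h1⟩ := Main.main
  exact ⟨s₀, h0, fun s hs => (h1 s hs).1⟩

end Pool.Agent.Results.MP_dd05ac_mp.SteepRieszEnergies
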